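import Pool.Agent.Helper61.NW.Goals

set_option autoImplicit false

namespace Pool.Agent.Helper14.NW

open Pool.Agent.Helper61.NW

universe u

/-- If `w` is central modulo the group generated by a central element `z` of infinite order and
`⟨z, w⟩` has finite index, then `w` is central. -/
theorem central_of_index {Γ : Type u} [Group Γ] (z w : Γ) (hz : ∀ g, g * z = z * g)
    (hz0 : ∀ n : ℤ, z ^ n = 1 → n = 0)
    (hw : ∀ g, w * g * w⁻¹ * g⁻¹ ∈ Subgroup.zpowers z)
    (hD : (Subgroup.closure {z, w}).FiniteIndex) : ∀ g, g * w = w * g := by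
  have hcom : ∀ g c : Γ, c ∈ Subgroup.zpowers z → g * c = c * g := by
    intro g c hc
    obtain ⟨m, rfl⟩ := Subgroup.mem_zpowers_iff.1 hc
    have h1 : Commute g z := hz g
    exact h1.zpow_right m
  let φ : Γ →* Γ :=
    { toFun := fun g => w * g * w⁻¹ * g⁻¹
      map_one' := by simp
      map_mul' := by
        intro g h
        have h1 := hcom g _ (hw h)
        calc w * (g * h) * w⁻¹ * (g * h)⁻¹
            = w * g * w⁻¹ * (w * h * w⁻¹ * h⁻¹) * g⁻¹ := by group
          _ = w * g * w⁻¹ * (g⁻¹ * g * (w * h * w⁻¹ * h⁻¹)) * g⁻¹ := by group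
          _ = w * g * w⁻¹ * (g⁻¹ * (g * (w * h * w⁻¹ * h⁻¹))) * g⁻¹ := by group
          _ = w * g * w⁻¹ * (g⁻¹ * ((w * h * w⁻¹ * h⁻¹) * g)) * g⁻¹ := by rw [h1]
          _ = w * g * w⁻¹ * g⁻¹ * (w * h * w⁻¹ * h⁻¹) := by group }
  have hφ : ∀ g, φ g = w * g * w⁻¹ * g⁻¹ := fun g => rfl
  have hker : Subgroup.closure {z, w} ≤ φ.ker := by
    rw [Subgroup.closure_le]
    rintro x (rfl | rfl)
    · change φ x = 1
      rw [hφ, hz w]
      group
    · change φ x = 1
      rw [hφ]
      group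
  have hfin : φ.ker.FiniteIndex := Subgroup.finiteIndex_of_le hker
  intro g
  have h1 : g ^ φ.ker.index ∈ φ.ker := Subgroup.pow_index_mem φ.ker g
  have h2 : φ g ^ φ.ker.index = 1 := by
    rw [← map_pow]
    exact h1
  obtain ⟨m, hm⟩ := Subgroup.mem_zpowers_iff.1 (hw g)
  rw [hφ, ← hm, ← zpow_natCast, ← zpow_mul] at h2
  have h3 := hz0 _ h2
  have h4 : (φ.ker.index : ℤ) ≠ 0 := by
    exact_mod_cast hfin.index_ne_zero
  have h5 : m = 0 := by
    rcases mul_eq_zero.1 h3 with h | h
    · exact h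
    · exact absurd h h4
  rw [h5, zpow_zero] at hm
  have h6 : w * g = g * w := by
    have h7 : w * g * w⁻¹ * g⁻¹ = 1 := hm.symm
    have h8 : w * g * w⁻¹ = g := mul_inv_eq_one.1 h7
    have h9 : w * g = g * w := mul_inv_eq_iff_eq_mul.1 h8
    exact h9
  exact h6.symm

/-- NIL. -/
theorem nil (h1 : CenStmt.{u}) : NilStmt.{u} := by
  intro Γ _ hfg hinf hnil
  obtain ⟨z, hz, hz0⟩ := h1 Γ hfg hinf hnil
  have hzc : Subgroup.zpowers z ≤ Subgroup.center Γ := by
    rw [Subgroup.zpowers_le]
    exact Subgroup.mem_center_iff.2 hz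
  have hN : (Subgroup.zpowers z).Normal := by
    constructor
    intro x hx g
    have h2 := Subgroup.mem_center_iff.1 (hzc hx) g
    rw [h2, mul_inv_cancel_right]
    exact hx
  by_cases hfin : Finite (Γ ⧸ Subgroup.zpowers z)
  · left
    have : (Subgroup.zpowers z).FiniteIndex := Subgroup.finiteIndex_of_finite_quotient
    exact Subgroup.finiteIndex_of_le hzc
  · have hQinf : Infinite (Γ ⧸ Subgroup.zpowers z) := not_finite_iff_infinite.1 hfin
    have hQfg : Group.FG (Γ ⧸ Subgroup.zpowers z) := inferInstance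
    have hQnil : Group.IsNilpotent (Γ ⧸ Subgroup.zpowers z) := inferInstance
    obtain ⟨w', hw', hw0⟩ := h1 (Γ ⧸ Subgroup.zpowers z) hQfg hQinf hQnil
    obtain ⟨w, rfl⟩ := QuotientGroup.mk_surjective w'
    by_cases hD : (Subgroup.closure {z, w}).FiniteIndex
    · left
      have hw : ∀ g, w * g * w⁻¹ * g⁻¹ ∈ Subgroup.zpowers z := by
        intro g
        rw [← QuotientGroup.eq_one_iff]
        have h3 := hw' (g : Γ ⧸ Subgroup.zpowers z)
        rw [QuotientGroup.mk_mul, QuotientGroup.mk_mul, QuotientGroup.mk_mul,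
          QuotientGroup.mk_inv, QuotientGroup.mk_inv, ← h3]
        group
      have hwc := central_of_index z w hz hz0 hw hD
      have hle : Subgroup.closure {z, w} ≤ Subgroup.center Γ := by
        rw [Subgroup.closure_le]
        rintro x (rfl | rfl)
        · exact Subgroup.mem_center_iff.2 hz
        · exact Subgroup.mem_center_iff.2 hwc
      exact Subgroup.finiteIndex_of_le hle
    · right
      refine ⟨z, w, hz, ?_, hD⟩
      intro i j hij
      have h3 : ((w ^ i * z ^ j : Γ) : Γ ⧸ Subgroup.zpowers z) = 1 := by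
        rw [hij]
        rfl
      have h4 : ((z ^ j : Γ) : Γ ⧸ Subgroup.zpowers z) = 1 :=
        (QuotientGroup.eq_one_iff _).2 (Subgroup.zpow_mem_zpowers z j)
      rw [QuotientGroup.mk_mul, h4, mul_one, QuotientGroup.mk_zpow] at h3
      have hi := hw0 i h3
      rw [hi, zpow_zero, one_mul] at hij
      exact ⟨hi, hz0 j hij⟩

end Pool.Agent.Helper14.NW
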