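import Pool.Agent.Helper61.NW.Goals2

set_option autoImplicit false

namespace Pool.Agent.Helper14.NW

open Pool.Agent.Helper61.NW

universe u

/-- A subgroup with a finite set of representatives has finite index. -/
theorem finiteIndex_of_reps {G : Type u} [Group G] (H : Subgroup G) (T : Set G) (hT : T.Finite)
    (h : ∀ g, ∃ t ∈ T, t⁻¹ * g ∈ H) : H.FiniteIndex := by
  have : Finite (G ⧸ H) := by
    have hfin : (Set.range fun g : G => (g : G ⧸ H)).Finite := by
      refine (hT.image (QuotientGroup.mk : G → G ⧸ H)).subset ?_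
      rintro _ ⟨g, rfl⟩
      obtain ⟨t, ht, htg⟩ := h g
      exact ⟨t, ht, QuotientGroup.eq.2 htg⟩
    rw [Set.range_eq_univ.2 QuotientGroup.mk_surjective] at hfin
    exact Set.finite_univ_iff.1 hfin
  exact Subgroup.finiteIndex_of_finite_quotient

/-- Fibres over a finite set. -/
theorem fin_fib {G M : Type*} [Group G] [Group M] (h : G →* M) (hk : (h.ker : Set G).Finite)
    {S : Set M} (hS : S.Finite) : {g | h g ∈ S}.Finite := by
  have e : {g | h g ∈ S} = ⋃ s ∈ S, {g | h g = s} := by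
    ext g
    simp
  rw [e]
  refine hS.biUnion fun s _ => ?_
  by_cases hs : ∃ g₀, h g₀ = s
  · obtain ⟨g₀, rfl⟩ := hs
    refine (hk.image fun x => g₀ * x).subset ?_
    intro g hg
    refine ⟨g₀⁻¹ * g, ?_, by simp⟩
    change h (g₀⁻¹ * g) = 1
    rw [map_mul, map_inv, show h g = h g₀ from hg, inv_mul_cancel]
  · have : {g | h g = s} = ∅ := by
      ext g
      simp only [Set.mem_setOf_eq, Set.mem_empty_iff_false, iff_false]
      intro hg
      exact hs ⟨g, hg⟩
    rw [this]
    exact Set.finite_empty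

theorem map_finiteIndex {Γ : Type u} [Group Γ] (N : Subgroup Γ) (hN : N.FiniteIndex)
    (K : Subgroup N) (hK : K.FiniteIndex) : (K.map N.subtype).FiniteIndex := by
  constructor
  rw [Subgroup.index_map_subtype]
  exact mul_ne_zero hK.index_ne_zero hN.index_ne_zero

theorem big2_of_big {Γ : Type u} [Group Γ] (N : Subgroup Γ) (hN : N.FiniteIndex)
    (hb : Big N) : Big2 Γ := by
  obtain ⟨z, w, hz, hi, hD⟩ := hb
  refine ⟨z, w, ?_, ?_, ?_, ?_⟩
  · have := hz w
    exact congrArg Subtype.val this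
  · intro i j hij
    refine hi i j (Subtype.ext ?_)
    push_cast
    exact hij
  · have hfin : Finite (Γ ⧸ N) := inferInstance
    refine (Set.finite_range fun q : Γ ⧸ N => q.out * (z : Γ) * q.out⁻¹).subset ?_
    rintro _ ⟨g, rfl⟩
    refine ⟨((g⁻¹ : Γ) : Γ ⧸ N), ?_⟩
    obtain ⟨n, hn⟩ := QuotientGroup.mk_out_eq_mul N g⁻¹
    have hzn : (n : Γ) * z = z * n := congrArg Subtype.val (hz n)
    have e : (n : Γ) * z * (n : Γ)⁻¹ = z := by rw [hzn, mul_inv_cancel_right]
    simp only [hn]
    calc g⁻¹ * (n : Γ) * z * (g⁻¹ * (n : Γ))⁻¹ = g⁻¹ * ((n : Γ) * z * (n : Γ)⁻¹) * g := by group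
      _ = g⁻¹ * z * g := by rw [e]
  · intro hf
    apply hD
    have e : (Subgroup.closure {(z : Γ), (w : Γ)}).comap N.subtype =
        Subgroup.closure {z, w} := by
      have e1 : Subgroup.closure {(z : Γ), (w : Γ)} = (Subgroup.closure {z, w}).map N.subtype := by
        rw [MonoidHom.map_closure, Set.image_pair]
        rfl
      rw [e1, Subgroup.comap_map_eq_self_of_injective N.subtype_injective]
    rw [← e]
    change ((Subgroup.closure {(z : Γ), (w : Γ)}).subgroupOf N).FiniteIndex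
    infer_instance

theorem one_dim {Γ : Type u} [Group Γ] (N : Subgroup Γ) (hN : N.FiniteIndex)
    (h : N →* Multiplicative ℤ) (hs : Function.Surjective h) (hk : (h.ker : Set N).Finite) :
    ∃ c : Γ, (Subgroup.zpowers c).FiniteIndex := by
  obtain ⟨c, hc⟩ := hs (Multiplicative.ofAdd 1)
  refine ⟨c, ?_⟩
  have h1 : (Subgroup.zpowers c).FiniteIndex := by
    refine finiteIndex_of_reps _ (h.ker : Set N) hk fun g => ?_
    refine ⟨g * (c ^ (Multiplicative.toAdd (h g)))⁻¹, ?_, ?_⟩
    · change h _ = 1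
      rw [map_mul, map_inv, map_zpow, hc, ← ofAdd_zsmul, smul_eq_mul, mul_one, ofAdd_toAdd,
        mul_inv_cancel]
    · have e : (g * (c ^ (Multiplicative.toAdd (h g)))⁻¹)⁻¹ * g =
          c ^ (Multiplicative.toAdd (h g)) := by group
      rw [e]
      exact Subgroup.zpow_mem_zpowers _ _
  have h2 := map_finiteIndex N hN _ h1
  rw [MonoidHom.map_zpowers] at h2
  exact h2

theorem two_dim {Γ : Type u} [Group Γ] (N : Subgroup Γ) (hN : N.FiniteIndex)
    (hcen : (Subgroup.center N).FiniteIndex)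
    (h : N →* Multiplicative (ℤ × ℤ)) (hs : Function.Surjective h)
    (hk : (h.ker : Set N).Finite) :
    ∃ A : Subgroup Γ, A.FiniteIndex ∧ Nonempty (A ≃* Multiplicative (ℤ × ℤ)) := by
  obtain ⟨s, hs1⟩ := hs (Multiplicative.ofAdd (1, 0))
  obtain ⟨t, ht1⟩ := hs (Multiplicative.ofAdd (0, 1))
  set a := (Subgroup.center N).index with ha
  have ha0 : a ≠ 0 := hcen.index_ne_zero
  have hsa : s ^ a ∈ Subgroup.center N := Subgroup.pow_index_mem _ s
  have hta : t ^ a ∈ Subgroup.center N := Subgroup.pow_index_mem _ t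
  have hcomm : Commute (s ^ a) (t ^ a) := (Subgroup.mem_center_iff.1 hta (s ^ a))
  let ψ : Multiplicative (ℤ × ℤ) →* N :=
    { toFun := fun x => (s ^ a) ^ (Multiplicative.toAdd x).1 * (t ^ a) ^ (Multiplicative.toAdd x).2
      map_one' := by simp
      map_mul' := by
        intro x y
        simp only [toAdd_mul, Prod.fst_add, Prod.snd_add, zpow_add]
        have e := (hcomm.zpow_zpow (Multiplicative.toAdd y).1 (Multiplicative.toAdd x).2).eq
        calc (s ^ a) ^ (Multiplicative.toAdd x).1 * (s ^ a) ^ (Multiplicative.toAdd y).1 *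
              ((t ^ a) ^ (Multiplicative.toAdd x).2 * (t ^ a) ^ (Multiplicative.toAdd y).2)
            = (s ^ a) ^ (Multiplicative.toAdd x).1 * ((s ^ a) ^ (Multiplicative.toAdd y).1 *
              (t ^ a) ^ (Multiplicative.toAdd x).2) * (t ^ a) ^ (Multiplicative.toAdd y).2 := by
              group
          _ = (s ^ a) ^ (Multiplicative.toAdd x).1 * ((t ^ a) ^ (Multiplicative.toAdd x).2 *
              (s ^ a) ^ (Multiplicative.toAdd y).1) * (t ^ a) ^ (Multiplicative.toAdd y).2 := by
              rw [e]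
          _ = _ := by group }
  have hψ : ∀ i j : ℤ, ψ (Multiplicative.ofAdd (i, j)) = (s ^ a) ^ i * (t ^ a) ^ j :=
    fun i j => rfl
  have hhψ : ∀ i j : ℤ, h (ψ (Multiplicative.ofAdd (i, j))) =
      Multiplicative.ofAdd ((a : ℤ) * i, (a : ℤ) * j) := by
    intro i j
    rw [hψ, map_mul, map_zpow, map_zpow, map_pow, map_pow, hs1, ht1, ← ofAdd_nsmul,
      ← ofAdd_nsmul, ← ofAdd_zsmul, ← ofAdd_zsmul, ← ofAdd_add]
    congr 1
    ext
    · simp [mul_comm]
    · simp [mul_comm]
  have hinj : Function.Injective ψ := by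
    rw [injective_iff_map_eq_one]
    intro x hx
    obtain ⟨⟨i, j⟩, rfl⟩ := Multiplicative.ofAdd.surjective x
    have h1 := hhψ i j
    rw [hx, map_one] at h1
    have h2 : ((a : ℤ) * i, (a : ℤ) * j) = (0, 0) := (Multiplicative.ofAdd.injective h1).symm
    have h3 : (a : ℤ) * i = 0 := congrArg Prod.fst h2
    have h4 : (a : ℤ) * j = 0 := congrArg Prod.snd h2
    have ha' : (a : ℤ) ≠ 0 := by exact_mod_cast ha0
    have hi : i = 0 := (mul_eq_zero.1 h3).resolve_left ha'
    have hj : j = 0 := (mul_eq_zero.1 h4).resolve_left ha'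
    rw [hi, hj]
    rfl
  have hfi : ψ.range.FiniteIndex := by
    obtain ⟨box, hbe⟩ : ∃ box : Set (Multiplicative (ℤ × ℤ)), box =
        Set.image (fun q : ℤ × ℤ => Multiplicative.ofAdd q)
          (Set.Ico (0 : ℤ) a ×ˢ Set.Ico (0 : ℤ) a) := ⟨_, rfl⟩
    have hbox : box.Finite := by
      rw [hbe]
      exact ((Set.finite_Ico _ _).prod (Set.finite_Ico _ _)).image _
    refine finiteIndex_of_reps _ _ (fin_fib h hk hbox) fun g => ?_
    obtain ⟨⟨i, j⟩, hij⟩ := Multiplicative.ofAdd.surjective (h g)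
    refine ⟨g * (ψ (Multiplicative.ofAdd (i / a, j / a)))⁻¹, ?_, ?_⟩
    · change h (g * (ψ (Multiplicative.ofAdd (i / a, j / a)))⁻¹) ∈ box
      rw [hbe]
      refine ⟨(i % a, j % a), ?_, ?_⟩
      · have ha' : (0 : ℤ) < a := by
          have : 0 < a := Nat.pos_of_ne_zero ha0
          exact_mod_cast this
        exact ⟨⟨Int.emod_nonneg _ ha'.ne', Int.emod_lt_of_pos _ ha'⟩,
          ⟨Int.emod_nonneg _ ha'.ne', Int.emod_lt_of_pos _ ha'⟩⟩
      · rw [map_mul, map_inv, hhψ, ← hij, ← ofAdd_neg, ← ofAdd_add]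
        congr 1
        ext
        · simp only [Prod.fst_add, Prod.fst_neg]
          have := Int.emod_add_mul_ediv i a
          linarith
        · simp only [Prod.snd_add, Prod.snd_neg]
          have := Int.emod_add_mul_ediv j a
          linarith
    · have e : (g * (ψ (Multiplicative.ofAdd (i / a, j / a)))⁻¹)⁻¹ * g =
          ψ (Multiplicative.ofAdd (i / a, j / a)) := by group
      rw [e]
      exact ⟨_, rfl⟩
  refine ⟨ψ.range.map N.subtype, map_finiteIndex N hN _ hfi, ⟨?_⟩⟩
  exact (ψ.range.equivMapOfInjective N.subtype N.subtype_injective).symm.trans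
    (MonoidHom.ofInjective hinj).symm

/-- VNL. -/
theorem vnl (h2 : NilStmt.{u}) (h3 : SchStmt.{u}) : VnlStmt.{u} := by
  intro Γ _ hfg hinf ⟨N, hN, hnil⟩
  have hNfg : Group.FG N := inferInstance
  have hNinf : Infinite N := by
    by_contra hfin
    rw [not_infinite_iff_finite] at hfin
    have h4 : (⊥ : Subgroup N).FiniteIndex := by
      have : Finite (N ⧸ (⊥ : Subgroup N)) := inferInstance
      exact Subgroup.finiteIndex_of_finite_quotient
    have h5 := map_finiteIndex N hN _ h4
    rw [Subgroup.map_bot] at h5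
    have h6 : Finite (Γ ⧸ (⊥ : Subgroup Γ)) := inferInstance
    have h7 : Finite Γ := Finite.of_equiv _ (QuotientGroup.quotientBot (G := Γ)).toEquiv
    exact not_finite Γ
  rcases h2 N hNfg hNinf hnil with hc | hb
  · rcases h3 N hNfg hNinf hc with hb | ⟨h, hs, hk⟩ | ⟨h, hs, hk⟩
    · exact Or.inl (big2_of_big N hN hb)
    · exact Or.inr (Or.inr (one_dim N hN h hs hk))
    · exact Or.inr (Or.inl (two_dim N hN hc h hs hk))
  · exact Or.inl (big2_of_big N hN hb)

end Pool.Agent.Helper14.NW
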